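import Pool.Agent.U231.FR.Pa

/-!
# Perfectness of the pairings on the motivic cohomology of products with varieties of Fermat type

Let `κ` be a finite field with `q` elements, of characteristic `p`, and `𝒱` a class of smooth projective
varieties over `κ`, closed under products, with Chow groups `A` with rational coefficients and a Weil
cohomology theory `H` (framework of helper492 and helper484: `TheoryData`, `IsChow`, `IsWeil`). Let `X_i` be
varieties in `𝒱` **of Fermat type** of different prime degrees `N_i` and of lengths at most `s_i`
(`IsFermatType`): the cohomology of `X_i` is generated by the classes of cycles and a subspace `T_i`, stable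
under the Frobenius, such that each eigenvalue of the Frobenius on `T_i` is, up to a root of unity and a
power of `q`, a product `∏_{a ∈ A} g(θ ^ a)` of at most `s_i` Gauss sums over `κ`, where `θ` is a
multiplicative character of `κ` of order `N_i`, and where the multiset `A + p A + ⋯ + p ^ (f - 1) A`, `f` the
order of `p` modulo `N_i`, is not symmetric, i.e. not invariant under `a ↦ -a`.

By the theorem of Weil the diagonal hypersurfaces `∑ c_j x_j ^ N = 0` of dimension `n` over `κ` (for
`q ≡ 1` modulo `N`) and their powers and products are of this form with `s = n + 2` (for products: the sum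
of these numbers), if the classes with symmetric `A + p A + ⋯` are algebraic. For `p ≡ 1` modulo `N` the
condition on the multiset is that `A` is not symmetric, and **the algebraicity for symmetric `A` is known**
for `c_j = 1`, and in general after a finite extension of `κ` (linear subspaces, Ran, Shioda and Katsura).

Let `U` be **any** separated scheme of finite type over `κ`, `e = dim U` (or any integer), and `Z` **any**
variety in `𝒱`. Fix an integer `c`. For `X` in `𝒱` let
* `R^n(X) = H^{2n+c}_c(X × U, ℚ(n))`, the motivic cohomology with compact supports,
* `T^m(X) = H^c_{2n+c}(X × U, ℚ(n))` with `m = dim X + e - n`, the motivic homology, and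
* `cup` the pairing of `T^(dim X + e - n)(X)` and `R^n(X)` with values in `ℚ`.
For `U` a point (`e = 0`) these are `R^n(X) = H^i(X, ℚ(n))` with `i = 2 n + c`, `T^m(X) = H^{2m-c}(X, ℚ(m))`,
which for `m = dim X - n` is the group `H^{2d-i}(X, ℚ(d-n))` of the question, `d = dim X`, and the pairing
given by the cup product and the degree map.
On `T` and `R` act the correspondences between the varieties in `𝒱`, a correspondence and its
transpose are adjoint for `cup` (`IsAdjoint`), the Frobenius endomorphisms `φT`, `φR` of `U` commute with
the correspondences, and the Frobenius endomorphism of `X × U` is `q ^ n` on `T^n(X)` and on `R^n(X)`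
(`IsCycleTheory`); only such properties are used. Let `χ` be a polynomial with rational
coefficients, `χ (0) ≠ 0`, with `χ (φT) = 0`, `χ (φR) = 0` (for `U` a point `χ = x - 1`; for general `U` it
exists if the motive of `U` is finite-dimensional, and its roots are Frobenius eigenvalues of `U`), let `B`
be the set of the products `β` of an eigenvalue of Frobenius on `H(Z)` and of a complex root of `χ`, and
suppose that the `β` are algebraic (theorem of Deligne). Let `f_i` be the order of `p` modulo `N_i`.
Suppose that for all `β` in `B` and all `i` there is an `m > 0` such that (`IsSmallBase`)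

* the field `F = ℚ(β ^ m) ∩ ℚ(ζ_{N_i})`, `ζ_N` a root of unity of order `N`, is real (equivalently
  `(N_i - 1) / [F : ℚ]` is even); for instance `N_i` is odd and unramified in the field `ℚ(β ^ m)`;
* or `N_i > s_i f_i [F : ℚ] + 1`; or `N_i = 2`.

**So the theorem applies to all prime numbers `N_i` with finitely many exceptions, which depend only on
the fields `ℚ(β)`. For the other primes there is no condition at all on the `X_i`: they may be of any
dimension and products of any number of factors, and `s_i` and `f_i` are arbitrary.** Finally suppose that
homologically trivial self-correspondences of degree zero of the products `V` are nilpotent. This is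
known for example if `Z` is dominated by a product of curves and the `X_i` are diagonal hypersurfaces
(Kimura; Shioda and Katsura).

**Theorem.** Let `V` be the product of `Z` and of finitely many pairwise different `X_i`, and
`v = dim V - dim Z`. For every `n` **the pairing of `T^(dim V + e - n)(V)` and `R^n(V)` is perfect if and
only if the pairings of `T^(dim Z + e - l)(Z)` and `R^l(Z)` with `n - v ≤ l ≤ n` are perfect.** So
`BP(n)` for `V` (and for `V × U`) is equivalent to the assertions `BP(l)`, `n - v ≤ l ≤ n`, for `Z` (and for
`Z × U`): the answer to the question for `V × U` is the same as for `Z × U`. No case of the Tate conjecture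
is assumed. For instance `Z` may be an arbitrary product of curves, or an abelian variety.

The earlier results for this problem are about products with abelian varieties. The varieties of
Fermat type are of a different kind: their cohomology is in arbitrary degrees, the primitive part of
a diagonal hypersurface of prime degree `N` decomposes in many pieces of rank `(N - 1) / f` (with
the coefficient field `ℚ(ζ_N)` in general), among them pieces of very small level, and `Z` is arbitrary.

The proof. Let `α_i` be eigenvalues of the Frobenius on the `T_i`, for `i` in a nonempty set `I`, and
suppose that `β ∏ α_i` is a power of `q` up to a root of unity. By the theorem of Stickelberger for the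
conjugates of Gauss sums the function `t ↦ ∑_{x ∈ A + p A + ⋯} saw(t x)` on `(ℤ/N_i)ˣ` is invariant
under the subgroup with the fixed field `F`. The values `L(1, χ)` are not zero, so the
sawtooth functions `t ↦ saw(t x)` are independent up to the sign of `x`, and the odd part of the
multiplicity function of `A + p A + ⋯` is invariant under this subgroup and not zero. So `-1` is not
in the subgroup (`F` is not real), and the support of `A + p A + ⋯` contains a coset of it: at least
`(N_i - 1) / [F : ℚ]` elements, but at most `s_i f_i`, a contradiction
(`U231/FF`, as in my hand-ins `FermatFactors` for other conjectures, see the claim file).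
The algebraic cycles on `X_i` have a dual system of cycles, and `T` and `R` of a product
`X_i × V'` are the direct sums of their products with `T(V')` and `R(V')` (helper876, `N876/CG`); the two
decompositions are dual to each other, so the pairing is the orthogonal sum of pairings of `V'`.

helper231 (`Pool/Agent/U231/FF`, `U231/FR`); the part on theories with correspondences is the library of
helper876 (`N876/CG`; the theorem `perf_deg` on pairings was not used in a hand-in), built on helpers
484, 492, 550.
-/

set_option autoImplicit false

open Polynomial CategoryTheory AlgebraicGeometry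

namespace Pool.Agent.Results.MP_a9d3bd_ag.FermatFactors

open Pool.Agent.H914 Pool.Agent.H914.VarClass Pool.Agent.H914.VarClass.Obj Pool.Agent.W492.BB
  Pool.Agent.W484.CK Pool.Agent.U231.FF Pool.Agent.U231.FR.Base Pool.Agent.U231.FR.Pa

/-- **The pairings on motivic cohomology of products of arbitrary schemes with varieties of Fermat
type of different prime degrees.** -/
theorem result (p : ℕ) [Fact p.Prime] (κ : Type) [Field κ] [Fintype κ] [CharP κ p] {ι : Type}
    (N s : ι → ℕ) {𝒱 : VarClass κ} (A : TheoryData.{0, 0, 0} 𝒱 ℚ) [IsChow A] {K : Type} [Field K]
    [IsAlgClosed K] [CharZero K] (H : WeilTheoryData.{0, 0, 0} A K) [IsWeil H] (τ : K →+* ℂ)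
    (F : ∀ X : 𝒱.Obj, X ⟶ X) (X : ι → 𝒱.Obj) (Z : 𝒱.Obj) (χ : ℚ[X])
    (h : IsFermatSystem p N s H τ F X Z χ) (hnil : ∀ L, Nilpotence H (productOf X Z L))
    (T R : MotivicData A) (φT : ∀ X, T.M X →ₗ[ℚ] T.M X) (φR : ∀ X, R.M X →ₗ[ℚ] R.M X)
    (hT : IsCycleTheory T φT F (Fintype.card κ)) (hT0 : IsRoot T φT χ)
    (hR : IsCycleTheory R φR F (Fintype.card κ)) (hR0 : IsRoot R φR χ)
    (cup : ∀ X : 𝒱.Obj, T.M X →ₗ[ℚ] R.M X →ₗ[ℚ] ℚ) (hadj : IsAdjoint T R cup) (e : ℤ) :
    (∀ L : List ι, L.Nodup → ∀ n : ℤ, IsPerfectIn T R cup e (productOf X Z L) n ↔
      ∀ l : ℤ, n - dimension X L ≤ l → l ≤ n → IsPerfectIn T R cup e Z l) ∧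
    -- the degree in the condition on `Z` and `U` is at most the degree of `β`
    (∀ (n : ℕ) (β : ℂ), IsAlgebraic ℚ β → commonDegree n β ≤ (minpoly ℚ β).natDegree) :=
  ⟨fun L hL n => main p κ N s A H τ F X Z χ h hnil T R φT φR hT hT0 hR hR0 cup hadj e L hL n,
    fun _ _ hβ => commonDegree_le hβ⟩

end Pool.Agent.Results.MP_a9d3bd_ag.FermatFactors
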