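import Pool.Agent.U173.SF.Pa

/-!
# The pairings on motivic cohomology and varieties with separated slope fields

Let `𝒱` be a class of smooth projective varieties over the field `κ` with `q = p ^ m` elements, closed under
products, with Chow groups `A` with rational coefficients and a Weil cohomology theory `H` with an
algebraically closed field `C` of coefficients (framework of the starting library: `TheoryData`, `IsChow`,
`IsWeil`), and fix a place `ι` above `p` of the field `ℚ̄` of algebraic numbers. A *slope field* of an
algebraic number `ν` is a subfield `L` of `ℚ̄` such that the automorphisms of `ℚ̄` over `L` do not change the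
absolute values at `ι` of the conjugates of `ν` (`HasSlopesIn`); a slope field of a variety is a slope field of
its Frobenius eigenvalues. (For example the reflex field of the CM type given by the slopes, for an
ordinary abelian variety and all its powers; in general the field of definition of the slope cocharacter of
the Frobenius torus, which is totally real or a CM field.)

Let `X i`, `i` in a linearly ordered set, be varieties such that the cohomology of `X i` is generated
by the classes of cycles and a Frobenius-stable subspace on which all eigenvalues are Weil numbers with
slope field `L i`, and not supersingular (`IsGoodAlgebra`: **this is the Tate conjecture for `X i` with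
semisimplicity**, if there are no supersingular eigenvalues in odd degrees). Let `Z` be **any** variety in
`𝒱` with a slope field `M`. We suppose that the fields are *separated* (`AreSeparated`, `IsSeparatedFamily`):
each `L i` contains a totally real field `E i`, which may depend on `i`, such that
* `L i` is normal over `E i`, and `L i ∩ E i L j` is totally real, for `i < j`;
* `L i ∩ E i M` is totally real.

**Every CM field `L i` is normal over its largest totally real subfield `L i⁺`. So for CM fields `L i` it is
enough that `L i` is not contained in `L i⁺ L j` for `i < j`, and not in `L i⁺ M`.** These are conditions on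
pairs of fields. Nothing is assumed on the normality of the fields over `ℚ`, on the composita of several
`L j`, on the size of the Betti numbers, or on the relations between the eigenvalues of one `X i`. (In my
hand-ins `PairwiseSlopeFields` for other conjectures the `L i`, with one exception, are normal over one
and the same totally real field `E`, which is contained in `M`.)

Let `U` be **any** separated scheme of finite type over `κ`, of dimension `e`, and let `c` be an integer. For
`X` in `𝒱` let `R^n(X) = H^i_c(X × U, ℚ(n))`, `i = 2 n + c`, the motivic cohomology with compact supports,
`T^r(X) = H^c_{2n+c}(X × U, ℚ(n))` with `r = dim X + e - n`, the motivic homology with closed supports in the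
dual degree, and `cup` the pairing of `T^(dim X + e - n)(X)` and `R^n(X)` with values in `ℚ`. For `U` a point
(`e = 0`) these are `R^n(X) = H^i(X, ℚ(n))` with `i = 2 n + c` and, for `r = dim X - n`, the group
`H^{2d-i}(X, ℚ(d-n))` of the question, `d = dim X`, with the pairing given by the cup product and the
degree map. On `T` and `R` act the correspondences between the varieties in `𝒱`, a correspondence and its
transpose are adjoint for `cup` (`IsAdjoint`), the Frobenius endomorphisms `φT`, `φR` of `U` commute with
the correspondences, and the Frobenius endomorphism of `X × U` is `q ^ n` on `T^n(X)` and on `R^n(X)`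
(`IsCycleTheory`); only such properties are used. Let `χ` be a rational polynomial, `χ (0) ≠ 0`, with
`χ (φT) = 0`, `χ (φR) = 0`, whose roots have the slope field `M` (for `U` a point `χ = x - 1`). Suppose that
homologically trivial self-correspondences of degree zero of the products `V` are nilpotent (known for
example if `Z` and the `X i` are dominated by products of curves; Kimura, O'Sullivan).

**Theorem.** Let `V` be the product of `Z` and of finitely many pairwise different `X i`, and
`v = dim V - dim Z`. For every `n` **the pairing of `T^(dim V + e - n)(V)` and `R^n(V)` is perfect if and
only if the pairings of `T^(dim Z + e - l)(Z)` and `R^l(Z)` with `n - v ≤ l ≤ n` are perfect.** So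
`BP(n)` for `V` is equivalent to the assertions `BP(l)`, `n - v ≤ l ≤ n`, for `Z`: the answer to the question
for `V` (and for `V × U`) is the same as for `Z` (and for `Z × U`). No case of the Tate conjecture is
assumed for `Z` and `U`.

For example, `X i` can be an ordinary abelian variety with complex multiplication by an arbitrary CM
field, or a power of it, for which the Tate conjecture is known; or an ordinary K3 surface, `L i` is then
the CM field generated by the eigenvalue of slope zero, of degree `22 - rank NS`; or a product of varieties
of Fermat type of degree `N_i` for which the Tate conjecture is known, `L i` is then the decomposition field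
of `p` in the field of the `N_i`-th roots of unity.

The proof. Let `α i` be Frobenius eigenvalues on the second parts of the `H(X i)`, for `i` in a nonempty
finite set, and `β` a product of an eigenvalue on `H(Z)` and of a root of `χ`, such that `β ∏ α i` is a power
of `p` up to a root of unity. Let `i` be the smallest index. The functions `f j = 2 log |g α j| - const` on
the Galois group are odd under the complex conjugation and invariant under `Gal(ℚ̄ / L j)`, their sum is
invariant under `Gal(ℚ̄ / M)`. The average over `Gal(ℚ̄ / L i)` commutes with the translations by
`Gal(ℚ̄ / E i)`, which contains the complex conjugation; so it kills `f j` for `j > i`, since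
`L i ∩ E i L j` is totally real: the groups `Gal(ℚ̄ / L i)` and `Gal(ℚ̄ / E i L j)` generate a group which
contains the complex conjugation. So `f i` is a multiple of the average of the sum, invariant under
`Gal(ℚ̄ / L i)` and `Gal(ℚ̄ / E i M)`, hence zero, and `α i` is supersingular, a contradiction
(`U173/OP/Star`, `U173/SF/Sys`). The algebraic cycles on `X i` have a dual system of cycles,
and `T` and `R` of a product `X i × V'` are the direct sums of their products with `T(V')` and `R(V')`; the two
decompositions are dual to each other, so the pairing is the orthogonal sum of pairings of `V'`
(helper876, `N876/CG`; helper231, `U231/FR/Pa`).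
-/

set_option autoImplicit false

open Polynomial CategoryTheory AlgebraicGeometry

namespace Pool.Agent.Results.MP_a9d3bd_ag.SeparatedSlopeFields

open Pool.Agent.H914 Pool.Agent.H914.VarClass Pool.Agent.H914.VarClass.Obj Pool.Agent.W492.BB
  Pool.Agent.W484.CK Pool.Agent.U173.PS Pool.Agent.U173.SF
  Pool.Agent.U231.FR.Base Pool.Agent.U231.FR.Pa

/-- **The pairings on motivic cohomology of products of arbitrary schemes with varieties with separated
slope fields.** -/
theorem result {κ : Type} [Field κ] {𝒱 : VarClass κ} (A : TheoryData.{0, 0, 0} 𝒱 ℚ) [IsChow A]
    {C : Type} [Field C] [IsAlgClosed C] [CharZero C] (H : WeilTheoryData.{0, 0, 0} A C) [IsWeil H]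
    {I : Type} [LinearOrder I] (p m : ℕ) [Fact p.Prime] (ι : AlgebraicClosure ℚ →+* PadicAlgCl p)
    (E : I → IntermediateField ℚ (AlgebraicClosure ℚ))
    (M : IntermediateField ℚ (AlgebraicClosure ℚ))
    (L : I → IntermediateField ℚ (AlgebraicClosure ℚ)) (F : ∀ X : 𝒱.Obj, X ⟶ X) (X : I → 𝒱.Obj)
    (Z : 𝒱.Obj) (h : IsSeparatedFamily p m ι E M L H F X Z) (χ : ℚ[X]) (hχ0 : χ.coeff 0 ≠ 0)
    (hχ : ∀ ρ : C, aeval ρ χ = 0 → HasSlopesIn p ι M ρ)
    (hnil : ∀ l : List I, Nilpotence H (productOf X Z l)) (T R : MotivicData A)
    (φT : ∀ X, T.M X →ₗ[ℚ] T.M X) (φR : ∀ X, R.M X →ₗ[ℚ] R.M X)
    (hT : IsCycleTheory T φT F (p ^ m)) (hT0 : IsRoot T φT χ)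
    (hR : IsCycleTheory R φR F (p ^ m)) (hR0 : IsRoot R φR χ)
    (cup : ∀ X : 𝒱.Obj, T.M X →ₗ[ℚ] R.M X →ₗ[ℚ] ℚ) (hadj : IsAdjoint T R cup) (e : ℤ)
    (l : List I) (hl : l.Nodup) (n : ℤ) :
    IsPerfectIn T R cup e (productOf X Z l) n ↔
      ∀ j : ℤ, n - dimension X l ≤ j → j ≤ n → IsPerfectIn T R cup e Z j :=
  Pool.Agent.U173.SF.Pa.main h hχ0 hχ hnil T R φT φR hT hT0 hR hR0 cup hadj e l hl n

end Pool.Agent.Results.MP_a9d3bd_ag.SeparatedSlopeFields
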