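import Pool.Agent.U213.BP.Main

/-!
# Perfect motivic pairings, three-term systems and trilinear hypersurfaces

Fix a prime `p`. A `System p` consists of the pairings
`H_i^c(X, ℚ(n)) × H^i_c(X, ℚ(n)) → ℚ` of rational motivic homology and cohomology with compact supports, for
all finite fields `K` of characteristic `p`, all separated schemes `X` of finite type over `K` and all
`i, n : ℤ`; its fields are the properties which are used (the triangle of a closed subscheme, affine
bundles, the multiplicative group, the point, restriction of the base field). `C K` is the class of the
smooth projective schemes over `K` (or any class with the properties `IsProjClass`), for which these are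
the intersection pairings of the problem. `BPw n X`: the pairings in the weight `n` are perfect for all
degrees `i`; `BP X`: the same for all weights.

1. For every single weight `n`: `BP(n)` (all smooth projective schemes over all finite fields of
  characteristic `p`) is equivalent to perfect pairings in the weight `n` for all separated schemes of
  finite type over these fields, and to perfect pairings in the weight `n` for the affine schemes over
  the prime field given by systems of equations each of which is a sum of at most three monomials
  `x_i y_j`.
2. For every finite field `K` and every `d`: perfect pairings in all weights for the smooth projective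
  schemes over `K` of dimension at most `d`, the same for all separated schemes of finite type of
  dimension at most `d`, and the same for the smooth affine cubic hypersurfaces `F(x, y, z) = 1`, for all
  trilinear forms `F` over `K` in three blocks of variables one of which has at most `d + 2` variables,
  are equivalent. All pairings are perfect for all `F(x, y, z) = 1` with a block of at most three
  variables.
3. The conjecture for all weights and all finite fields of characteristic `p` is equivalent to perfect
  pairings of the smooth affine hypersurfaces `∑_{(i, j, k) ∈ E} x_i y_j z_k = 1` over the prime field, for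
  all finite sets `E` of triples such that every variable `x_i` occurs in at most three monomials.

New here: the five lemma and the descent to direct factors for perfect pairings (`Pool.Agent.U213.BP.Lin`),
the Noetherian induction with alterations in a fixed weight (`Pool.Agent.U213.BP.NI`, `Alt`), and the sparse
hypersurfaces. The geometric reductions of any property with such closure properties to bilinear systems and
trilinear forms are those of `Pool.Agent.Y116.UV`, `Pool.Agent.Z125.UN` and `Pool.Agent.Q282.UZ`.
-/

set_option autoImplicit false

open CategoryTheory AlgebraicGeometry MvPolynomial Pool.Agent.Y116.UV Pool.Agent.U213.BP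

namespace Pool.Agent.Results.MP_a9d3bd_ag.ThreeTermSystems

universe v

theorem result (p : ℕ) [Fact p.Prime] (S : System.{v} p)
    (C : ∀ (K : Type) [Field K] [Finite K] [Algebra (ZMod p) K], Sch K → Prop)
    (hC : ∀ (K : Type) [Field K] [Finite K] [Algebra (ZMod p) K], IsProjClass (S.D K) (C K)) :
    -- a fixed weight
    (∀ n : ℤ,
      ((∀ (K : Type) [Field K] [Finite K] [Algebra (ZMod p) K] (X : Sch K), C K X →
        (S.D K).BPw n X) ↔ S.All n) ∧ (S.All n ↔ S.Sys n)) ∧
    -- dimension at most `d` and forms with a block of at most `d + 2` variables
    (∀ (K : Type) [Field K] [Finite K] [Algebra (ZMod p) K],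
      (∀ d : ℕ,
        ((∀ X : Sch K, C K X → topologicalKrullDim X.left ≤ d → (S.D K).BP X) ↔
          ∀ X : Sch K, FT True X → topologicalKrullDim X.left ≤ d → (S.D K).BP X) ∧
        ((∀ X : Sch K, FT True X → topologicalKrullDim X.left ≤ d → (S.D K).BP X) ↔
          (S.D K).BPTri (d + 2))) ∧
      (S.D K).BPTri 3) ∧
    -- all weights
    ((∀ (K : Type) [Field K] [Finite K] [Algebra (ZMod p) K] (X : Sch K), C K X → (S.D K).BP X) ↔
      S.Hyps) := by
  have h1 : ∀ n : ℤ, (∀ (K : Type) [Field K] [Finite K] [Algebra (ZMod p) K] (X : Sch K), C K X →
      (S.D K).BPw n X) ↔ S.All n := fun n =>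
    ⟨fun h K _ _ _ X hX => of_class (dev_w _ n) (alt_w _ (hC K) n) (h K) X hX,
      fun h K _ _ _ X hX => h K X ((hC K).ft X hX)⟩
  have h2 : ∀ (K : Type) [Field K] [Finite K] [Algebra (ZMod p) K] (d : ℕ),
      (∀ X : Sch K, C K X → topologicalKrullDim X.left ≤ d → (S.D K).BP X) ↔
        ∀ X : Sch K, FT True X → topologicalKrullDim X.left ≤ d → (S.D K).BP X := fun K _ _ _ d =>
    ⟨fun h X hX hd => of_class_dim (dev _) (alt _ (hC K)) d h X hX hd,
      fun h X hX hd => h X ((hC K).ft X hX) hd⟩
  refine ⟨fun n => ⟨h1 n, all_iff S n⟩, fun K _ _ _ => ⟨fun d => ⟨h2 K d, dim_iff _ d⟩, ?_⟩, ?_⟩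
  · exact (dim_iff _ 1).1 ((h2 K 1).1 fun X hX hd => (hC K).curves X hX hd)
  · rw [← hyps_iff]
    constructor
    · exact fun h n => (h1 n).1 fun K _ _ _ X hX => h K X hX n
    · exact fun h K _ _ _ X hX n => (h1 n).2 (h n) K X hX

end Pool.Agent.Results.MP_a9d3bd_ag.ThreeTermSystems
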